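import Pool.Agent.H50.GW.ALL
import Pool.Agent.H50.GW.RES
import Pool.Agent.H50.GW.CUB
import Pool.Agent.H50.GW.VLM

/-!
# Cunningham chains in Granville's model of the primes: counts, and the critical scale `(log x)^(k+1)`

Granville's refinement of Cramér's model: independent events `A n` (the number `n` is chosen); the
multiples of the primes `p ≤ z n` are not chosen, `log (z n) ~ log log n`, and the other `n` are chosen
with a probability asymptotic to `∏_{p ≤ z n} (1 - 1/p)⁻¹ / log n`.  Almost surely, for every `k`, the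
number of the chains of length `k` which start in `(n, 2 n]` is asymptotic to the number predicted by
Bateman and Horn, and for every `C > 0` we determine the upper and the lower limit of the number of chains
of length `k` which start in the intervals `(x, x + C (log x)^(k+1))`, divided by `log x`, and whether
such intervals can be free of chains.
-/

set_option autoImplicit false

open MeasureTheory Filter Set ProbabilityTheory
open scoped Topology ENNReal

namespace Pool.Agent.Results.MP_c77da8_nt.GranvilleChains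

/-- the starts of Cunningham chains of length `k` in `S`: the `m` such that `m`, `2 m + 1`, `4 m + 3`, …,
`2^(k-1) (m + 1) - 1` belong to `S` -/
def Starts (k : ℕ) (S : Set ℕ) : Set ℕ := {m : ℕ | ∀ i : ℕ, i < k → 2 ^ i * (m + 1) - 1 ∈ S}

/-- the number of the starts of chains of length `k` with `x < m < x + y` -/
noncomputable def count (k : ℕ) (S : Set ℕ) (x y : ℝ) : ℕ :=
  Set.ncard {m : ℕ | m ∈ Starts k S ∧ x < m ∧ (m : ℝ) < x + y}

/-- `∏_{p ≤ y} (1 - 1/p)` -/
noncomputable def mertens (y : ℕ) : ℝ := ∏ p ∈ (Finset.Icc 1 y).filter Nat.Prime, (1 - (p : ℝ)⁻¹)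

/-- `n` has no prime factor `≤ w` -/
def Rough (w n : ℕ) : Prop := ∀ p : ℕ, p.Prime → p ∣ n → w < p

/-- the number of the residue classes `r` modulo `p` such that `p` divides one of the numbers
`2^i (r + 1) - 1`, `i < k` -/
noncomputable def nuc (k p : ℕ) : ℕ := Set.ncard {r : ℕ | r < p ∧ ∃ i : ℕ, i < k ∧ p ∣ 2 ^ i * (r + 1) - 1}

/-- `∏_{p ≤ w} (1 - ν(p)/p) (1 - 1/p)^(-k)` -/
noncomputable def chainProduct (k w : ℕ) : ℝ :=
  (∏ p ∈ (Finset.Icc 1 w).filter Nat.Prime, (1 - (nuc k p : ℝ) / p)) / mertens w ^ k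

/-- the number of the `m` in `(t, t + w^(k+1)]` such that the numbers `2^i (m + 1) - 1`, `i < k`, have no
prime factors `≤ w`, divided by `w^(k+1) ∏_{p ≤ w} (1 - 1/p)^k` -/
noncomputable def chainDensity (k w t : ℕ) : ℝ :=
  (Set.ncard {m : ℕ | t < m ∧ m ≤ t + w ^ (k + 1) ∧ ∀ i : ℕ, i < k → Rough w (2 ^ i * (m + 1) - 1)} : ℝ) /
    ((w : ℝ) ^ (k + 1) * mertens w ^ k)

/-- the lower extremal density of the chain sieve: the sparsest intervals of length `w^(k+1)`, `w → ∞` -/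
noncomputable def sparsest (k : ℕ) : ℝ≥0∞ :=
  liminf (fun w : ℕ => ⨅ t : ℕ, ENNReal.ofReal (chainDensity k w t)) atTop

/-- the upper extremal density of the chain sieve: the densest intervals of length `w^(k+1)`, `w → ∞` -/
noncomputable def densest (k : ℕ) : ℝ≥0∞ :=
  limsup (fun w : ℕ => ⨆ t : ℕ, ENNReal.ofReal (chainDensity k w t)) atTop

/-- the largest `u` with `u log (u / l) - u + l ≤ 1`: the threshold for the upper deviations, of
probability `1 / x`, of a Poisson variable of mean `l log x` -/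
noncomputable def upper (l : ℝ) : ℝ := sSup {u : ℝ | 0 ≤ u ∧ u * Real.log (u / l) - u + l ≤ 1}

/-- the smallest `u ≥ 0` with `u log (u / l) - u + l ≤ 1` -/
noncomputable def lower (l : ℝ) : ℝ := sInf {u : ℝ | 0 ≤ u ∧ u * Real.log (u / l) - u + l ≤ 1}

/-- Granville's model -/
structure GranvilleModel {Ω : Type} [MeasurableSpace Ω] (P : Measure Ω) (A : ℕ → Set Ω) (z : ℕ → ℕ) : Prop where
  prob : IsProbabilityMeasure P
  meas : ∀ n, MeasurableSet (A n)
  indep : iIndepSet A P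
  empty : ∀ n, ¬ Rough (z n) n → A n = ∅
  mono : Monotone z
  level : Tendsto (fun n : ℕ => Real.log (z n) / Real.log (Real.log n)) atTop (𝓝 1)
  density : Tendsto (fun n : ℕ => (P (A n)).toReal * (Real.log n * mertens (z n)))
    (atTop ⊓ 𝓟 {n : ℕ | Rough (z n) n}) (𝓝 1)

open Pool.Agent.H50.BF Pool.Agent.H50.CW Pool.Agent.H50.GW

lemma cub' : S_CUB := cub fnd sng Pool.Agent.H50.GW.ind ldu' mert (vlm sng)

lemma mertens_MM (w : ℕ) : mertens w = (MM w)⁻¹ := mert1_MM w

lemma rough_iff (w n : ℕ) : Rough w n ↔ Rou w n := Rou_iff w n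

lemma gmod_iff {Ω : Type} [MeasurableSpace Ω] (P : Measure Ω) (A : ℕ → Set Ω) (z : ℕ → ℕ) :
    GranvilleModel P A z ↔ GMod P A z := by
  have h1 : {n : ℕ | Rough (z n) n} = {n : ℕ | Rou (z n) n} := by
    ext n
    exact rough_iff _ _
  have h2 : (fun n : ℕ => (P (A n)).toReal * (Real.log n * mertens (z n))) =
      fun n : ℕ => (P (A n)).toReal * (Real.log n / MM (z n)) := by
    funext n
    rw [mertens_MM, div_eq_mul_inv]
  constructor
  · intro h
    exact ⟨h.prob, h.meas, h.indep, fun n hn => h.empty n (by rwa [rough_iff]), h.mono, h.level, by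
      have := h.density
      rwa [h1, h2] at this⟩
  · intro h
    refine ⟨h.prob, h.meas, h.indep, fun n hn => h.empty n (by rwa [rough_iff] at hn), h.mono, h.lev, ?_⟩
    have := h.dens
    rw [h1, h2]
    exact this

/-- the forms -/
def cc (k : ℕ) : Fin k → ℕ := fun i => 2 ^ (i : ℕ)
/-- the forms -/
def dd (k : ℕ) : Fin k → ℕ := fun i => 2 ^ (i : ℕ) - 1

lemma form (k : ℕ) (i : Fin k) (m : ℕ) : cc k i * m + dd k i = 2 ^ (i : ℕ) * (m + 1) - 1 := by
  unfold cc dd
  have h : 1 ≤ 2 ^ (i : ℕ) := Nat.one_le_two_pow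
  rw [mul_add, mul_one]
  omega

lemma forall_cd {Q : ℕ → Prop} (k m : ℕ) :
    (∀ i : Fin k, Q (cc k i * m + dd k i)) ↔ ∀ i : ℕ, i < k → Q (2 ^ i * (m + 1) - 1) := by
  simp only [form]
  exact ⟨fun h i hi => h ⟨i, hi⟩, fun h i => h i i.2⟩

lemma exists_cd {Q : ℕ → Prop} (k m : ℕ) :
    (∃ i : Fin k, Q (cc k i * m + dd k i)) ↔ ∃ i : ℕ, i < k ∧ Q (2 ^ i * (m + 1) - 1) := by
  simp only [form]
  exact ⟨fun ⟨i, h⟩ => ⟨i, i.2, h⟩, fun ⟨i, hi, h⟩ => ⟨⟨i, hi⟩, h⟩⟩

lemma sysk {k : ℕ} (hk : 1 ≤ k) : Sys (cc k) (dd k) where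
  one := hk
  pos := fun i => Nat.one_le_two_pow
  adm := fun p hp => by
    refine ⟨p - 1, fun i hd => ?_⟩
    rw [form, Nat.sub_add_cancel hp.one_lt.le] at hd
    have h1 : 1 ≤ 2 ^ (i : ℕ) * p := Nat.mul_pos (by positivity) hp.pos
    have h2 : p ∣ 2 ^ (i : ℕ) * p - (2 ^ (i : ℕ) * p - 1) := Nat.dvd_sub (Dvd.intro_left _ rfl) hd
    rw [show 2 ^ (i : ℕ) * p - (2 ^ (i : ℕ) * p - 1) = 1 by omega] at h2
    exact hp.one_lt.ne' (Nat.dvd_one.1 h2)
  ndg := fun i j hij h => by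
    unfold cc dd at h
    have h1 : 1 ≤ 2 ^ (i : ℕ) := Nat.one_le_two_pow
    have h2 : 1 ≤ 2 ^ (j : ℕ) := Nat.one_le_two_pow
    rw [Nat.mul_sub, Nat.mul_sub, mul_one, mul_one, mul_comm (2 ^ (j : ℕ)) (2 ^ (i : ℕ))] at h
    have h3 : 2 ^ (i : ℕ) ≤ 2 ^ (i : ℕ) * 2 ^ (j : ℕ) := Nat.le_mul_of_pos_right _ h2
    have h4 : 2 ^ (j : ℕ) ≤ 2 ^ (i : ℕ) * 2 ^ (j : ℕ) := Nat.le_mul_of_pos_left _ h1
    have h5 : 2 ^ (i : ℕ) = 2 ^ (j : ℕ) := by omega
    exact hij (Fin.ext (Nat.pow_right_injective le_rfl h5))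
  inj := ⟨0, fun m _ i j h => by
    simp only [form] at h
    have h1 : 1 ≤ 2 ^ (i : ℕ) * (m + 1) := Nat.mul_pos (by positivity) (by omega)
    have h2 : 1 ≤ 2 ^ (j : ℕ) * (m + 1) := Nat.mul_pos (by positivity) (by omega)
    have h3 : 2 ^ (i : ℕ) * (m + 1) = 2 ^ (j : ℕ) * (m + 1) := by omega
    exact Fin.ext (Nat.pow_right_injective le_rfl (Nat.eq_of_mul_eq_mul_right (by omega) h3))⟩
  col := ⟨0, fun m m' _ h1 h2 i j h => by
    exfalso
    simp only [form] at h
    have h3 : 1 ≤ 2 ^ (i : ℕ) * (m + 1) := Nat.mul_pos (by positivity) (by omega)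
    have h4 : 1 ≤ 2 ^ (j : ℕ) * (m' + 1) := Nat.mul_pos (by positivity) (by omega)
    have h5 : 2 ^ (i : ℕ) * (m + 1) = 2 ^ (j : ℕ) * (m' + 1) := by omega
    have h6 : (j : ℕ) < i := by
      by_contra hcon
      push Not at hcon
      have h7 : 2 ^ (i : ℕ) ≤ 2 ^ (j : ℕ) := Nat.pow_le_pow_right (by norm_num) hcon
      have h8 : 2 ^ (i : ℕ) * (m + 1) < 2 ^ (j : ℕ) * (m' + 1) :=
        lt_of_lt_of_le ((Nat.mul_lt_mul_left (by positivity)).2 (by omega)) (Nat.mul_le_mul_right _ h7)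
      omega
    have h7 : 2 ^ (j : ℕ) * 2 ≤ 2 ^ (i : ℕ) := by
      rw [← pow_succ]
      exact Nat.pow_le_pow_right (by norm_num) h6
    have h8 : 2 ^ (j : ℕ) * 2 * (m + 1) ≤ 2 ^ (j : ℕ) * (m' + 1) := h5 ▸ Nat.mul_le_mul_right _ h7
    rw [mul_assoc] at h8
    have h9 := Nat.le_of_mul_le_mul_left h8 (by positivity)
    omega⟩

lemma chainDensity_gd (k w t : ℕ) : chainDensity k w t = gd (cc k) (dd k) w t := by
  unfold chainDensity gd
  congr 2
  congr 1
  ext m
  rw [Set.mem_ofPred_eq, Set.mem_ofPred_eq, forall_cd (Q := Rou w) k m]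
  simp only [rough_iff]
  tauto

lemma sparsest_eq (k : ℕ) : sparsest k = slk (cc k) (dd k) := by
  rw [← liminf_gd]
  unfold sparsest
  simp only [chainDensity_gd]

lemma densest_eq (k : ℕ) : densest k = shk (cc k) (dd k) := by
  rw [← limsup_gd]
  unfold densest
  simp only [chainDensity_gd]

lemma cntk_count (k : ℕ) (S : Set ℕ) (x y : ℝ) : cntk (cc k) (dd k) S x y = count k S x y := by
  unfold cntk count Starts
  congr 1
  ext m
  rw [Set.mem_ofPred_eq, Set.mem_ofPred_eq, Set.mem_ofPred_eq, forall_cd (Q := fun n => n ∈ S) k m]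

lemma nuc_nu (k p : ℕ) : nuc k p = nu (cc k) (dd k) p := by
  classical
  unfold nuc nu
  rw [← Set.ncard_coe_finset]
  congr 1
  ext r
  simp only [Set.mem_ofPred_eq, Finset.coe_filter, Finset.mem_range]
  rw [exists_cd (Q := fun n => p ∣ n) k r]

lemma chainProduct_VV (k w : ℕ) : chainProduct k w = VV (cc k) (dd k) w := by
  unfold chainProduct VV
  rw [mertens_MM, inv_pow, div_inv_eq_mul]
  congr 1
  refine Finset.prod_congr rfl fun p hp => ?_
  rw [nuc_nu]

lemma count_ht {Ω : Type} (A : ℕ → Set Ω) (ω : Ω) (k n : ℕ) :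
    Set.ncard {m : ℕ | m ∈ Starts k {j | ω ∈ A j} ∧ n < m ∧ m ≤ 2 * n} = ht (cc k) (dd k) A ω n n := by
  rw [ht_ncard]
  congr 1
  ext m
  unfold Starts
  simp only [Set.mem_ofPred_eq]
  rw [forall_cd (Q := fun j => ω ∈ A j) k m, two_mul]

lemma starts {Ω : Type} [MeasurableSpace Ω] {P : Measure Ω} {A : ℕ → Set Ω} {z : ℕ → ℕ} (hA : GMod P A z)
    (hcub : S_CUB) {k : ℕ} (hk : 1 ≤ k) {V : ℝ} (hV : Tendsto (fun v : ℕ => VV (cc k) (dd k) v) atTop (𝓝 V)) :
    ∀ᵐ ω ∂P, Tendsto (fun n : ℕ => (Set.ncard {m : ℕ | m ∈ Starts k {j | ω ∈ A j} ∧ n < m ∧ m ≤ 2 * n} : ℝ) *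
      Real.log n ^ k / n) atTop (𝓝 V) := by
  have hz : Tendsto z atTop atTop := by
    have h1 : Tendsto (fun n : ℕ => Real.log (Real.log n)) atTop atTop := Real.tendsto_log_atTop.comp tlog
    have h2 : Tendsto (fun n : ℕ => Real.log (z n)) atTop atTop := by
      have h3 := hA.lev.pos_mul_atTop one_pos h1
      refine h3.congr' ?_
      filter_upwards [h1.eventually_gt_atTop 0] with n hn
      field_simp
    refine tendsto_atTop.2 fun b => ?_
    filter_upwards [h2.eventually_gt_atTop (Real.log b)] with n hn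
    by_contra hcon
    push Not at hcon
    rcases Nat.eq_zero_or_pos (z n) with h | h
    · rw [h] at hn
      simp only [Nat.cast_zero, Real.log_zero] at hn
      have : 0 ≤ Real.log (b : ℝ) := Real.log_natCast_nonneg b
      linarith
    · have : Real.log (z n) ≤ Real.log b := Real.log_le_log (by exact_mod_cast h) (by exact_mod_cast hcon.le)
      linarith
  filter_upwards [hcub Ω P A z hA k (cc k) (dd k) (sysk hk) (1 / 2) (by norm_num)] with ω hω
  simp only [count_ht]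
  have h2 : Tendsto (fun n : ℕ => VV (cc k) (dd k) (z n)) atTop (𝓝 V) := hV.comp hz
  have h3 : Tendsto (fun n : ℕ => (ht (cc k) (dd k) A ω n n : ℝ) * Real.log n ^ k / n - VV (cc k) (dd k) (z n))
      atTop (𝓝 0) := by
    rw [Metric.tendsto_nhds]
    intro ε hε
    filter_upwards [hω (ε / 2) (by positivity), eventually_ge_atTop 1] with n h4 hn
    rw [Real.dist_eq, sub_zero]
    have hnr : (1 : ℝ) ≤ n := by exact_mod_cast hn
    refine lt_of_le_of_lt (h4 n ?_ le_rfl) (by linarith)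
    calc (n : ℝ) ^ (1 / 2 : ℝ) ≤ (n : ℝ) ^ (1 : ℝ) := Real.rpow_le_rpow_of_exponent_le hnr (by norm_num)
      _ = n := Real.rpow_one _
  have h5 := h3.add h2
  simpa using h5

/-- Cunningham chains in Granville's model. -/
theorem result :
    -- Granville's model exists
    (∃ (Ω : Type) (_ : MeasurableSpace Ω) (P : Measure Ω) (A : ℕ → Set Ω) (z : ℕ → ℕ), GranvilleModel P A z) ∧
    -- the thresholds
    (∀ l : ℝ, 0 < l → l ≤ upper l) ∧ (∀ l : ℝ, 1 < l → 0 < lower l) ∧ (∀ l : ℝ, 0 ≤ l → l ≤ 1 → lower l = 0) ∧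
    -- the extremal densities of the chain sieves
    (∀ k : ℕ, 1 ≤ k → 0 < densest k ∧ densest k < ⊤ ∧ sparsest k ≤ densest k) ∧
    -- the constants of Bateman and Horn
    ∃ V : ℕ → ℝ, (∀ k : ℕ, 1 ≤ k → 0 < V k ∧ Tendsto (chainProduct k) atTop (𝓝 (V k))) ∧
    ∀ (Ω : Type) [MeasurableSpace Ω] (P : Measure Ω) (A : ℕ → Set Ω) (z : ℕ → ℕ), GranvilleModel P A z →
      -- the number of chains of length `k` which start in `(n, 2 n]`
      (∀ᵐ ω ∂P, ∀ k : ℕ, 1 ≤ k → Tendsto (fun n : ℕ =>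
        (Set.ncard {m : ℕ | m ∈ Starts k {j | ω ∈ A j} ∧ n < m ∧ m ≤ 2 * n} : ℝ) * Real.log n ^ k / n)
        atTop (𝓝 (V k))) ∧
      -- the intervals `(x, x + C (log x)^(k+1))`
      (∀ k : ℕ, 1 ≤ k → ∀ C : ℝ, 0 < C → ∀ᵐ ω ∂P,
        limsup (fun x : ℝ => ENNReal.ofReal
          (count k {n | ω ∈ A n} x (C * Real.log x ^ (k + 1)) / Real.log x)) atTop =
          ENNReal.ofReal (upper (C * (densest k).toReal)) ∧
        liminf (fun x : ℝ => ENNReal.ofReal
          (count k {n | ω ∈ A n} x (C * Real.log x ^ (k + 1)) / Real.log x)) atTop =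
          ENNReal.ofReal (lower (C * (sparsest k).toReal)) ∧
        (C * (sparsest k).toReal < 1 →
          ∃ᶠ x : ℝ in atTop, count k {n | ω ∈ A n} x (C * Real.log x ^ (k + 1)) = 0) ∧
        (1 < C * (sparsest k).toReal →
          ∀ᶠ x : ℝ in atTop, 0 < count k {n | ω ∈ A n} x (C * Real.log x ^ (k + 1)))) := by
  have hrate := rate
  have hV : ∀ k : ℕ, ∃ V : ℝ, 1 ≤ k → 0 < V ∧ Tendsto (chainProduct k) atTop (𝓝 V) := by
    intro k
    by_cases hk : 1 ≤ k
    · obtain ⟨V, hV0, hV⟩ := vlm sng k (cc k) (dd k) (sysk hk)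
      refine ⟨V, fun _ => ⟨hV0, ?_⟩⟩
      rw [show chainProduct k = fun v => VV (cc k) (dd k) v from funext (chainProduct_VV k)]
      exact hV
    · exact ⟨0, fun h => absurd h hk⟩
  choose V hV using hV
  refine ⟨?_, ?_, ?_, hrate.2.2.2.2.2.1, ?_, V, hV, ?_⟩
  · obtain ⟨Ω, mΩ, P, A, z, h⟩ := gxm
    exact ⟨Ω, mΩ, P, A, z, (gmod_iff P A z).2 h⟩
  · exact hrate.2.2.2.2.2.2.2
  · intro l hl
    exact dn_pos hl
  · intro k hk
    obtain ⟨h0, h2, hle, -⟩ := general' gup' gex' rate hbk' (sysk hk)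
    rw [densest_eq, sparsest_eq]
    exact ⟨h0, h2, hle⟩
  · intro Ω _ P A z hmod
    have hA := (gmod_iff P A z).1 hmod
    refine ⟨?_, fun k hk C hC => ?_⟩
    · rw [ae_all_iff]
      intro k
      by_cases hk : 1 ≤ k
      · have h1 := (hV k hk).2
        rw [show chainProduct k = fun v => VV (cc k) (dd k) v from funext (chainProduct_VV k)] at h1
        filter_upwards [starts hA cub' hk h1] with ω hω _ using hω
      · exact Eventually.of_forall fun ω h => absurd h hk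
    · obtain ⟨-, -, -, hgen⟩ := general' gup' gex' rate hbk' (sysk hk)
      filter_upwards [hgen Ω P A z hA C hC] with ω hω
      simp only [cntk_count] at hω
      rw [densest_eq, sparsest_eq]
      exact hω

end Pool.Agent.Results.MP_c77da8_nt.GranvilleChains
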