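import Pool.Agent.H67.CC.Grid
import Pool.Agent.H67.CC.LOW
import Pool.Agent.H67.CC.GG
import Pool.Agent.H67.CC.First
import Pool.Agent.H67.CC.UPP
import Pool.Agent.H67.CC.LAW
import Pool.Agent.H67.CC.NOT

/-!
# The longest Cunningham chain for every order of independence

In Cramér's random model every integer `n ≥ 3` belongs to the random set `A` with probability
`1 / log n`, independently. In the model with independence of order `κ` only those sets `T` of
events have to be independent whose number of elements is at most `κ n` for all `n ∈ T`.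

Let `κ` be nondecreasing and unbounded and `m(x) = min (κ x / 2) (log x / log log x)`.

(1) In EVERY model of order `κ` almost surely for all `ε > 0` and all large `N` some Cunningham
    chain of length at least `(1 - ε) m(N)` starts in `(N, 4 N]`.
(2) In SOME model of order `κ` almost surely for all `ε > 0` and all large `N` no Cunningham chain
    longer than `(1 + ε) m(N)` starts at an `n` with `n ^ (1 + ε) ≤ N`.
(3) For nondecreasing `κ` the following are equivalent: `κ n ≥ (2 - o(1)) log n / log log n`; in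
    every model of order `κ` almost surely the longest chain which starts at some `n ≤ N` has
    length asymptotic to `log N / log log N`; in every model of order `κ` almost surely this length
    is at least `(1 - o(1)) log N / log log N`.
-/

set_option autoImplicit false

namespace Pool.Agent.Results.MP_c77da8_nt.LongestChain

open MeasureTheory Filter Topology

/-- Cramér's model with independence of order `κ`: `E n` is the event that the integer `n` belongs
to the random set. For every finite set `T` of integers `n ≥ 3` with at most `κ n` elements for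
all `n ∈ T`, the probability that `T` is contained in the random set is `∏ 1 / log n`. -/
structure CramerModel {Ω : Type} [MeasurableSpace Ω] (P : Measure Ω) (κ : ℕ → ℕ)
    (E : ℕ → Set Ω) : Prop where
  meas : ∀ n, MeasurableSet (E n)
  indep : ∀ T : Finset ℕ, (∀ n ∈ T, 3 ≤ n ∧ T.card ≤ κ n) →
    P (⋂ n ∈ T, E n) = ENNReal.ofReal (∏ n ∈ T, 1 / Real.log n)

/-- in every model with independence of order `κ` almost surely the random set has property `Q` -/
def AlwaysAS (κ : ℕ → ℕ) (Q : ∀ {Ω : Type}, (ℕ → Set Ω) → Ω → Prop) : Prop :=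
  ∀ (Ω : Type) (_ : MeasurableSpace Ω) (P : Measure Ω) (_ : IsProbabilityMeasure P)
    (E : ℕ → Set Ω), CramerModel P κ E → ∀ᵐ ω ∂P, Q E ω

/-- in some model with independence of order `κ` almost surely the random set has property `Q` -/
def SomeAS (κ : ℕ → ℕ) (Q : ∀ {Ω : Type}, (ℕ → Set Ω) → Ω → Prop) : Prop :=
  ∃ (Ω : Type) (_ : MeasurableSpace Ω) (P : Measure Ω) (_ : IsProbabilityMeasure P)
    (E : ℕ → Set Ω), CramerModel P κ E ∧ ∀ᵐ ω ∂P, Q E ω

/-- the random set contains the Cunningham chain of the first kind `n`, `2 n + 1`, ...,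
`2 ^ (k - 1) (n + 1) - 1` of length `k` -/
def Chain {Ω : Type} (E : ℕ → Set Ω) (ω : Ω) (n k : ℕ) : Prop :=
  ∀ i < k, ω ∈ E (2 ^ i * (n + 1) - 1)

/-- the function `log n / log log n` -/
noncomputable def g (n : ℕ) : ℝ := Real.log n / Real.log (Real.log n)

/-- the minimum of `κ n / 2` and `log n / log log n` -/
noncomputable def m (κ : ℕ → ℕ) (n : ℕ) : ℝ := min ((κ n : ℝ) / 2) (g n)

/-- the length of the longest chain with starting point at most `N` (`0` if there is no longest) -/
noncomputable def longest {Ω : Type} (E : ℕ → Set Ω) (ω : Ω) (N : ℕ) : ℕ :=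
  sSup {k | ∃ n ≤ N, Chain E ω n k}

lemma chain_iff {Ω : Type} (E : ℕ → Set Ω) (ω : Ω) (n k : ℕ) :
    Chain E ω n k ↔ H67.CC.Ch {n | ω ∈ E n} n k := Iff.rfl

lemma longest_eq {Ω : Type} (E : ℕ → Set Ω) (ω : Ω) (N : ℕ) :
    longest E ω N = H67.CC.longest {n | ω ∈ E n} N := by
  unfold longest H67.CC.longest
  simp only [chain_iff]

lemma g_eq (n : ℕ) : g n = H67.CC.gg n := rfl

lemma m_eq (κ : ℕ → ℕ) (n : ℕ) : m κ n = H67.CC.mm κ n := rfl

theorem result :
    (∀ κ : ℕ → ℕ, Monotone κ → Tendsto κ atTop atTop →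
      AlwaysAS κ fun E ω => ∀ ε : ℝ, 0 < ε → ∀ᶠ N : ℕ in atTop, ∃ n k : ℕ, N < n ∧ n ≤ 4 * N ∧
        Chain E ω n k ∧ (1 - ε) * m κ N ≤ k) ∧
    (∀ κ : ℕ → ℕ, Monotone κ → Tendsto κ atTop atTop →
      SomeAS κ fun E ω => ∀ ε : ℝ, 0 < ε → ∀ᶠ N : ℕ in atTop, ∀ n k : ℕ,
        (n : ℝ) ^ (1 + ε) ≤ N → Chain E ω n k → (k : ℝ) ≤ (1 + ε) * m κ N) ∧
    (∀ κ : ℕ → ℕ, Monotone κ → List.TFAE [
      ∀ ε : ℝ, 0 < ε → ∀ᶠ n : ℕ in atTop, (2 - ε) * g n ≤ κ n,
      AlwaysAS κ fun E ω => Tendsto (fun N : ℕ => (longest E ω N : ℝ) / g N) atTop (𝓝 1),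
      AlwaysAS κ fun E ω => ∀ ε : ℝ, 0 < ε → ∀ᶠ N : ℕ in atTop,
        (1 - ε) * g N ≤ longest E ω N]) := by
  have hgg := H67.CC.s_gg
  have h1 : ∀ κ : ℕ → ℕ, Monotone κ → Tendsto κ atTop atTop →
      AlwaysAS κ fun E ω => H67.CC.LowerP κ {n | ω ∈ E n} := by
    intro κ hmono hκ Ω mΩ P hP E hM
    exact H67.CC.s_low hgg P κ E ⟨hM.meas, hM.indep⟩ hmono hκ
  have h2 : ∀ κ : ℕ → ℕ, Monotone κ → Tendsto κ atTop atTop →
      SomeAS κ fun E ω => H67.CC.UpperP κ {n | ω ∈ E n} := by
    intro κ hmono hκ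
    obtain ⟨Ω, mΩ, P, hP, E, hM, hE⟩ := H67.CC.s_grid hgg κ hmono hκ
    refine ⟨Ω, mΩ, P, hP, E, ⟨hM.meas, hM.indep⟩, ?_⟩
    filter_upwards [hE, H67.CC.s_first hgg P κ E hM hmono] with ω h3 h4
    exact H67.CC.s_upp hgg κ _ hmono hκ h3 h4
  refine ⟨?_, ?_, fun κ hmono => ?_⟩
  · intro κ hmono hκ Ω mΩ P hP E hM
    filter_upwards [h1 κ hmono hκ Ω mΩ P hP E hM] with ω hω
    simp only [m_eq, chain_iff]
    exact hω
  · intro κ hmono hκ
    obtain ⟨Ω, mΩ, P, hP, E, hM, hE⟩ := h2 κ hmono hκ
    refine ⟨Ω, mΩ, P, hP, E, hM, ?_⟩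
    filter_upwards [hE] with ω hω
    simp only [m_eq, chain_iff]
    exact hω
  tfae_have 1 → 2 := by
    intro h Ω mΩ P hP E hM
    have hκ : Tendsto κ atTop atTop := by
      have h3 : Tendsto (fun n => (κ n : ℝ)) atTop atTop := by
        refine tendsto_atTop_mono' _ (h 1 one_pos) ?_
        exact hgg.2.1.const_mul_atTop (by norm_num)
      exact tendsto_natCast_atTop_iff.1 h3
    filter_upwards [h1 κ hmono hκ Ω mΩ P hP E hM,
      H67.CC.s_first hgg P κ E ⟨hM.meas, hM.indep⟩ hmono] with ω h3 h4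
    have h5 := H67.CC.s_law hgg κ {n | ω ∈ E n} hmono (by simpa only [g_eq] using h) h3 h4
    simpa only [g_eq, longest_eq] using h5
  tfae_have 2 → 3 := by
    intro h Ω mΩ P hP E hM
    filter_upwards [h Ω mΩ P hP E hM] with ω hω ε hε
    have h3 : ∀ᶠ N : ℕ in atTop, 1 - ε < (longest E ω N : ℝ) / g N :=
      hω.eventually_const_lt (by linarith)
    filter_upwards [h3, hgg.2.1.eventually_gt_atTop 0] with N h4 h5
    have h5 : 0 < g N := h5
    rw [lt_div_iff₀ h5] at h4
    exact h4.le
  tfae_have 3 → 1 := by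
    intro h
    -- a slowly growing order which is at least `κ`
    set κ' : ℕ → ℕ := fun n => max (κ n) (Nat.log 2 (Nat.log 2 n)) with hκ'
    have hmono' : Monotone κ' := fun a b hab => max_le_max (hmono hab)
      (Nat.log_mono_right (Nat.log_mono_right hab))
    have ht : Tendsto (fun n => Nat.log 2 (Nat.log 2 n)) atTop atTop :=
      (H67.CC.nat_log_tendsto (by norm_num)).comp (H67.CC.nat_log_tendsto (by norm_num))
    have ht' : Tendsto κ' atTop atTop := tendsto_atTop_mono (fun n => le_max_right _ _) ht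
    obtain ⟨Ω, mΩ, P, hP, E, hM, hE⟩ := h2 κ' hmono' ht'
    have h3 := h Ω mΩ P hP E ⟨hM.meas, fun T hT => hM.indep T fun n hn =>
      ⟨(hT n hn).1, (hT n hn).2.trans (le_max_left _ _)⟩⟩
    have h4 : ∀ᵐ _ω ∂P, ∀ ε : ℝ, 0 < ε → ∀ᶠ n : ℕ in atTop, (2 - ε) * g n ≤ κ' n := by
      filter_upwards [hE, h3] with ω h5 h6
      have h7 := H67.CC.s_not hgg κ' {n | ω ∈ E n} hmono' ht' h5
        (by simpa only [g_eq, longest_eq] using h6)
      simpa only [g_eq] using h7
    obtain ⟨_, h5⟩ := h4.exists
    intro ε hε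
    -- the slow order is small compared with `log n / log log n`
    have h6 : ∀ᶠ n : ℕ in atTop, ((Nat.log 2 (Nat.log 2 n) : ℕ) : ℝ) < 1 * g n := by
      unfold g
      have hL : Tendsto (fun n : ℕ => Real.log n) atTop atTop :=
        Real.tendsto_log_atTop.comp tendsto_natCast_atTop_atTop
      have hLL : Tendsto (fun n : ℕ => Real.log (Real.log n)) atTop atTop :=
        Real.tendsto_log_atTop.comp hL
      have h1 := ((Real.isLittleO_pow_log_id_atTop (n := 2)).comp_tendsto hL).def
        (c := 1 / 4) (by norm_num)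
      filter_upwards [h1, hL.eventually_gt_atTop 1, hLL.eventually_ge_atTop 3,
        eventually_ge_atTop 16] with n h2 h3 h4 h5
      simp only [Function.comp_apply, id, Real.norm_eq_abs] at h2
      rw [abs_of_nonneg (sq_nonneg _), abs_of_pos (by linarith)] at h2
      have hl2 := Real.log_two_gt_d9
      have hpos : (0:ℝ) < Nat.log 2 n := by
        have : 0 < Nat.log 2 n := Nat.log_pos (by norm_num) (by omega)
        exact_mod_cast this
      have h6 : (Nat.log 2 n : ℝ) ≤ 2 * Real.log n := by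
        have := Real.natLog_le_logb n 2
        rw [Real.logb, le_div_iff₀ (by positivity)] at this
        push_cast at this
        nlinarith
      have h7 : ((Nat.log 2 (Nat.log 2 n) : ℕ) : ℝ) * Real.log 2 ≤ Real.log 2 + Real.log (Real.log n) := by
        have := Real.natLog_le_logb (Nat.log 2 n) 2
        rw [Real.logb, le_div_iff₀ (by positivity)] at this
        push_cast at this
        refine this.trans ?_
        rw [← Real.log_mul (by norm_num) (by linarith)]
        exact Real.log_le_log hpos h6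
      have h8 : ((Nat.log 2 (Nat.log 2 n) : ℕ) : ℝ) ≤ 2 * Real.log (Real.log n) := by
        have h9 := Real.log_two_lt_d9
        nlinarith
      rw [one_mul, lt_div_iff₀ (by linarith)]
      nlinarith
    have h7 := h5 (min ε 1) (lt_min hε one_pos)
    filter_upwards [h6, h7, hgg.2.1.eventually_gt_atTop 0] with n h8 h9 h10
    have h10 : 0 < g n := h10
    have h11 : (2 - ε) * g n ≤ (2 - min ε 1) * g n :=
      mul_le_mul_of_nonneg_right (by linarith [min_le_left ε 1]) h10.le
    have h12 : 1 * g n ≤ (2 - min ε 1) * g n :=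
      mul_le_mul_of_nonneg_right (by linarith [min_le_right ε 1]) h10.le
    simp only [hκ', Nat.cast_max] at h9
    rcases le_max_iff.1 h9 with h13 | h13
    · linarith
    · linarith
  tfae_finish

end Pool.Agent.Results.MP_c77da8_nt.LongestChain
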