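import Pool.Agent.H49.D.GG

/-!
# Chains of primes for almost all multipliers
-/

set_option autoImplicit false

namespace Pool.Agent.Results.MP_c77da8_nt.MetricChains

open Finset MeasureTheory Filter Topology
open ArithmeticFunction (vonMangoldt)

/-- the chain `[p_0, …, p_k]` with `p_0 = n` and `p_{i+1} = ⌊β_i p_i⌋ + h_i` (`0` in place of a negative value);
a Cunningham chain of the first kind has `β_i = 2`, `h_i = 1` -/
noncomputable def chain : (k : ℕ) → (Fin k → ℝ) → (Fin k → ℤ) → ℕ → List ℕ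
  | 0, _, _, n => [n]
  | k + 1, β, h, n => n :: chain k (fun i => β i.succ) (fun i => h i.succ) (⌊β 0 * n⌋ + h 0).toNat

theorem chain_eq (k : ℕ) : ∀ (β : Fin k → ℝ) (h : Fin k → ℤ) (n : ℕ),
    chain k β h n = Pool.Agent.H49.CC.links k β h n := by
  induction k with
  | zero => intro β h n; rfl
  | succ k ih => intro β h n; rw [chain, Pool.Agent.H49.CC.links, ih]

/-- **Theorem.** For every `k` and almost all `β ∈ (0, ∞) ^ k`, for all shifts `h ∈ ℤ ^ k`: the sum over `n ≤ N` of
the product of the von Mangoldt function over the `k + 1` members of the chain which starts at `n` is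
`N + O(N / (log N) ^ A)` for every `A`, and the number of `n ≤ N` for which all the `k + 1` members of this chain are
primes is asymptotic to `N / (log N) ^ {k + 1}`. -/
theorem result (k : ℕ) : ∀ᵐ β : Fin k → ℝ, (∀ i, 0 < β i) → ∀ h : Fin k → ℤ,
    (∀ A : ℕ, ∃ C : ℝ, ∀ᶠ N : ℕ in atTop,
      |∑ n ∈ Icc 1 N, ((chain k β h n).map fun p => vonMangoldt p).prod - N| ≤ C * (N / Real.log N ^ A)) ∧
    Tendsto (fun N : ℕ => (((Icc 1 N).filter fun n => ∀ p ∈ chain k β h n, p.Prime).card : ℝ) *
      Real.log N ^ (k + 1) / N) atTop (𝓝 1) := by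
  filter_upwards [Pool.Agent.H49.CC.count_ae k] with β hβ h0 h
  obtain ⟨h1, h2⟩ := hβ h0 h
  simp only [chain_eq]
  exact ⟨h1, h2⟩

end Pool.Agent.Results.MP_c77da8_nt.MetricChains
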