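import Pool.Agent.H43.MA.OutD
import Pool.Agent.H43.MA.Main
import Pool.Agent.H43.MA.ALL
import Pool.Agent.H43.MA.CRT
import Pool.Agent.H43.MA.PRD

/-!
# Cunningham chains with small defects

Let `θ > 1/3`, let `M` be the product of the primes `≤ y`, where `K₀ log log x ≤ y ≤ K₁ log log x`, and let `S` be an ARBITRARY
set of at least `x / log ^ A x` primes `p ≤ x` for which the numbers `2 ^ i (p + 1) - 1` (`1 ≤ i ≤ k`) have no prime factor
`≤ y`. For almost all vectors `d` (in every product of `k` intervals of length at least `x ^ θ / M`) there are at least as many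
`p ∈ S` as expected, up to the factor `1 - ε`, which are the first term of a sequence of primes
`q 0 = p`, `q (i + 1) = 2 q i + 1 + M d i` (`i < k`).

The proof: `Pool/Agent/H43/MA`.
-/

set_option autoImplicit false

open Finset

namespace Pool.Agent.Results.MP_c77da8_nt.SmallDefects

/-- the product of `1 - 1/q` over the primes `q ≤ y` -/
noncomputable def V (y : ℕ) : ℝ := ∏ q ∈ (Icc 1 y).filter Nat.Prime, (1 - 1 / (q : ℝ))

open Classical in
/-- the primes `p ≤ x` for which the numbers `2 ^ i (p + 1) - 1`, `1 ≤ i ≤ k`, have no prime factor `≤ y` -/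
noncomputable def Starts (k x y : ℕ) : Finset ℕ :=
  (Icc 1 x).filter (fun p => p.Prime ∧ ∀ q : ℕ, q.Prime → q ≤ y → ∀ i ∈ Icc 1 k, ¬ q ∣ 2 ^ i * (p + 1) - 1)

/-- the numbers `2 ^ (i + 1) (p + 1) - 1 + M d i`, `i < k`, are all prime: `d` is the vector of the total defects -/
def TotalDefects {k : ℕ} (M : ℕ) (d : Fin k → ℕ) (p : ℕ) : Prop :=
  ∀ i : Fin k, (2 ^ ((i : ℕ) + 1) * (p + 1) - 1 + M * d i).Prime

/-- there is a sequence of primes `q 0 = p`, `q (i + 1) = 2 q i + 1 + M d i` (`i < k`): `d` is the vector of the defects of the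
steps -/
def StepDefects {k : ℕ} (M : ℕ) (d : Fin k → ℕ) (p : ℕ) : Prop :=
  ∃ q : ℕ → ℕ, q 0 = p ∧ (∀ i : Fin k, q (i + 1) = 2 * q i + 1 + M * d i) ∧ ∀ i ≤ k, (q i).Prime

open Classical in
/-- the number of the elements of `S` with property `P` -/
noncomputable def num (S : Finset ℕ) (P : ℕ → Prop) : ℕ := (S.filter P).card

open Classical in
/-- the vectors `m` with `1 ≤ m i ≤ G i` for which less than `(1 - ε) #S / (V y log x) ^ k` elements `p` of `S` have property
`P m` -/
noncomputable def Exceptional {k : ℕ} (ε : ℝ) (S : Finset ℕ) (x y : ℕ) (G : Fin k → ℕ) (P : (Fin k → ℕ) → ℕ → Prop) :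
    Finset (Fin k → ℕ) :=
  (Fintype.piFinset fun i => Icc 1 (G i)).filter (fun m => (num S (P m) : ℝ) < (1 - ε) * (S.card / (V y * Real.log x) ^ k))

/-- **Cunningham chains with small defects.** For all `θ > 1/3`, `k`, `A` and `0 < ε ≤ 1` there is `K₀` such that for every
`K₁`, every large `x` and every `y` between `K₀ log log x` and `K₁ log log x`, with `M` the product of the primes `≤ y`:

1. for every set `S` of at least `x / log ^ A x` elements of `Starts k x y` and all windows `(g i, g i + G i]` (`i < k`) with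
   `M (g i + G i) ≤ x` and `M G i ≥ x ^ θ`: for all `m` in the box `1 ≤ m i ≤ G i` with at most `ε ∏ G i` exceptions, at least
   `(1 - ε) #S / (V y log x) ^ k` elements `p` of `S` have all `2 ^ (i + 1) (p + 1) - 1 + M (g i + m i)` prime;
2. for the same `S`, all `g i` and `G` with `2 ^ k M (g i + G) ≤ x`, `M G ≥ x ^ θ`: for all `m` in the box `1 ≤ m i ≤ G` with at
   most `ε G ^ k` exceptions, at least `(1 - ε) #S / (V y log x) ^ k` elements `p` of `S` are the first term of a sequence of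
   primes `q 0 = p`, `q (i + 1) = 2 q i + 1 + M (g i + m i)`, `i < k`;
3. `Starts k x y` has at least `x / log ^ (2 k + 4) x` elements (so for `A ≥ 2 k + 4` it is one of the sets `S`). -/
theorem result (θ : ℝ) (hθ : 1 / 3 < θ) (k A : ℕ) (ε : ℝ) (hε : 0 < ε) (hε1 : ε ≤ 1) : ∃ K₀ : ℕ, ∀ K₁ : ℕ,
    ∃ x₀ : ℕ, ∀ x : ℕ, x₀ ≤ x →
    ∀ y : ℕ, K₀ * Real.log (Real.log x) ≤ y → y ≤ K₁ * Real.log (Real.log x) →
    (∀ S : Finset ℕ, S ⊆ Starts k x y → (x : ℝ) ≤ S.card * Real.log x ^ A →
      (∀ g G : Fin k → ℕ, (∀ i, primorial y * (g i + G i) ≤ x ∧ (x : ℝ) ^ θ ≤ primorial y * G i) →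
        ((Exceptional ε S x y G (fun m => TotalDefects (primorial y) (fun i => g i + m i))).card : ℝ) ≤
          ε * ∏ i, (G i : ℝ)) ∧
      (∀ (g : Fin k → ℕ) (G : ℕ), (∀ i, 2 ^ k * (primorial y * (g i + G)) ≤ x) → (x : ℝ) ^ θ ≤ primorial y * G →
        ((Exceptional ε S x y (fun _ => G) (fun m => StepDefects (primorial y) (fun i => g i + m i))).card : ℝ) ≤
          ε * (G : ℝ) ^ k)) ∧
    (x : ℝ) ≤ (Starts k x y).card * Real.log x ^ (2 * k + 4) := by
  classical
  obtain ⟨K1, hK1⟩ := Pool.Agent.H43.MA.Fin.outC Pool.Agent.H43.MA.c_BILX θ hθ k A ε hε hε1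
  obtain ⟨K2, hK2⟩ := Pool.Agent.H43.MA.Fin.outD Pool.Agent.H43.MA.c_BILX θ hθ k A ε hε hε1
  refine ⟨max K1 K2, fun K₁ => ?_⟩
  obtain ⟨n1, hn1⟩ := hK1 K₁
  obtain ⟨n2, hn2⟩ := hK2 K₁
  obtain ⟨n3, hn3⟩ := Pool.Agent.H43.MA.ALL.main Pool.Agent.H43.MA.CRT.main Pool.Agent.H43.MA.PRD.main k K₁
  refine ⟨max (max n1 n2) (max n3 3), fun x hx y hy1 hy2 => ?_⟩
  have b1 : n1 ≤ x := le_trans (le_trans (le_max_left _ _) (le_max_left _ _)) hx
  have b2 : n2 ≤ x := le_trans (le_trans (le_max_right _ _) (le_max_left _ _)) hx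
  have b3 : n3 ≤ x := le_trans (le_trans (le_max_left _ _) (le_max_right _ _)) hx
  have b4 : 3 ≤ x := le_trans (le_trans (le_max_right _ _) (le_max_right _ _)) hx
  have hll : 0 ≤ Real.log (Real.log x) := by
    apply Real.log_nonneg
    rw [Real.le_log_iff_exp_le (by exact_mod_cast (by omega : 0 < x))]
    have h1 := Real.exp_one_lt_d9
    have h2 : (3 : ℝ) ≤ x := by exact_mod_cast b4
    linarith
  have hy3 : (K1 : ℝ) * Real.log (Real.log x) ≤ y := by
    refine le_trans (mul_le_mul_of_nonneg_right ?_ hll) hy1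
    exact_mod_cast le_max_left _ _
  have hy4 : (K2 : ℝ) * Real.log (Real.log x) ≤ y := by
    refine le_trans (mul_le_mul_of_nonneg_right ?_ hll) hy1
    exact_mod_cast le_max_right _ _
  refine ⟨fun S hS hSc => ?_, ?_⟩
  · have hS1 : S ⊆ Icc 1 x := hS.trans (filter_subset _ _)
    have hS2 : ∀ s ∈ S, s.Prime := fun s hs => (mem_filter.1 (hS hs)).2.1
    have hS3 : ∀ s ∈ S, ∀ i : Fin k, ∀ q : ℕ, q.Prime → q ≤ y → ¬ q ∣ 2 ^ ((i : ℕ) + 1) * (s + 1) - 1 :=
      fun s hs i q hq hqy => (mem_filter.1 (hS hs)).2.2 q hq hqy _ (mem_Icc.2 ⟨by omega, by omega⟩)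
    refine ⟨fun g G hW => ?_, fun g G hW1 hW2 => ?_⟩
    · refine le_trans ?_ (hn1 x b1 y hy3 hy2 S hS1 hS3 hSc g G hW)
      rw [Nat.cast_le]
      apply card_le_card
      intro m hm
      unfold Exceptional at hm
      rw [mem_filter] at hm ⊢
      refine ⟨hm.1, lt_of_le_of_lt ?_ hm.2⟩
      unfold num
      rw [Nat.cast_le]
      apply card_le_card
      intro s hs
      rw [mem_filter] at hs ⊢
      exact ⟨hs.1, hs.2⟩
    · refine le_trans ?_ (hn2 x b2 y hy4 hy2 S hS1 hS2 hS3 hSc g G hW1 hW2)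
      rw [Nat.cast_le]
      apply card_le_card
      intro m hm
      unfold Exceptional at hm
      rw [mem_filter] at hm ⊢
      refine ⟨hm.1, lt_of_le_of_lt ?_ hm.2⟩
      unfold num
      rw [Nat.cast_le]
      apply card_le_card
      intro s hs
      rw [mem_filter] at hs ⊢
      exact ⟨hs.1, hs.2⟩
  · refine (hn3 x b3 y hy2).trans ?_
    refine mul_le_mul_of_nonneg_right ?_ (pow_nonneg (Real.log_natCast_nonneg x) _)
    rw [Nat.cast_le]
    apply card_le_card
    intro s hs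
    unfold Starts
    rw [mem_filter] at hs ⊢
    exact hs

end Pool.Agent.Results.MP_c77da8_nt.SmallDefects
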